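import Mathlib
import Pool.Agent.W876.WK.Up

/-!
# Forcing notions whose small families of conditions are unions of countably many centered sets do
not add weak Kurepa trees

`Pool.Agent.W876.WK.Down` treats countable forcing notions: there one condition decides
uncountably many nodes of `ℵ₂` branches. Here a centered set of conditions takes the role of this
condition, and two different names of branches are separated by a chain condition argument.
-/

set_option autoImplicit false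

namespace Pool.Agent.H362WK

open Cardinal Pool.Agent.Helper126.Lam.Forc Pool.Agent.W876.WK

section defs

variable {P : Type} [Preorder P]

/-- A set `C` of conditions is centered: any finitely many members of `C` have a common lower
bound (in `P`). -/
def Centered (C : Set P) : Prop := ∀ F : Finset P, (↑F : Set P) ⊆ C → ∃ r : P, ∀ s ∈ F, r ≤ s

/-- Every family of at most `κ` conditions is covered by countably many centered sets. -/
def LocCentered (P : Type) [Preorder P] (κ : Cardinal.{0}) : Prop :=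
  ∀ (J : Type) (f : J → P), #J ≤ κ →
    ∃ C : ℕ → Set P, (∀ n, Centered (C n)) ∧ ∀ j, ∃ n, f j ∈ C n

/-- the sentence `φ` is decided by finitely many members of `C` -/
def D (q : P) (C : Set P) (φ : Set P) : Prop :=
  ∃ F : Finset P, (↑F : Set P) ⊆ C ∧ ∀ r ≤ q, (∀ s ∈ F, r ≤ s) → r ∈ φ

/-- finitely many members of `C` have a lower bound below `q` -/
def Base (q : P) (C : Set P) : Prop :=
  ∀ F : Finset P, (↑F : Set P) ⊆ C → ∃ r ≤ q, ∀ s ∈ F, r ≤ s

variable {q : P} {C : Set P}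

theorem base_of_centered {A : Set P} (hA : Centered A) : Base q {s | s ∈ A ∧ s ≤ q} := by
  intro F hF
  rcases F.eq_empty_or_nonempty with rfl | ⟨t, ht⟩
  · exact ⟨q, le_rfl, fun s hs => absurd hs (Finset.notMem_empty s)⟩
  · obtain ⟨r, hr⟩ := hA F (fun s hs => (hF hs).1)
    exact ⟨r, (hr t ht).trans (hF (Finset.mem_coe.2 ht)).2, hr⟩

theorem D.exists_le {φ : Set P} (h : D q C φ) (hC : Base q C) : ∃ r ≤ q, r ∈ φ := by
  obtain ⟨F, hF, h⟩ := h
  obtain ⟨r, hr, hr'⟩ := hC F hF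
  exact ⟨r, hr, h r hr hr'⟩

theorem D.and {φ ψ : Set P} (h1 : D q C φ) (h2 : D q C ψ) : D q C (fand φ ψ) := by
  classical
  obtain ⟨F, hF, h1⟩ := h1
  obtain ⟨G, hG, h2⟩ := h2
  refine ⟨F ∪ G, ?_, fun r hr hs => ⟨h1 r hr fun s h => hs s (Finset.mem_union_left _ h),
    h2 r hr fun s h => hs s (Finset.mem_union_right _ h)⟩⟩
  rw [Finset.coe_union]
  exact Set.union_subset hF hG

theorem D.imp {φ ψ : Set P} (h : D q C φ) (hi : ∀ r ≤ q, r ∈ φ → r ∈ ψ) : D q C ψ := by
  obtain ⟨F, hF, h⟩ := h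
  exact ⟨F, hF, fun r hr hs => hi r hr (h r hr hs)⟩

theorem D.of_mem {φ : Set P} {s : P} (hs : s ∈ C) (hd : Down φ) (h : s ∈ φ) : D q C φ := by
  refine ⟨{s}, ?_, fun r _ hr => hd s h r (hr s (Finset.mem_singleton_self s))⟩
  rw [Finset.coe_singleton]
  exact Set.singleton_subset_iff.2 hs

variable {lt ht : K1 → K1 → Set P}

theorem d_unique (hT : q ∈ IsTree lt ht) (hC : Base q C) {x ξ ξ' : K1}
    (h1 : D q C (meets (ht x ξ))) (h2 : D q C (meets (ht x ξ'))) : ξ = ξ' := by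
  obtain ⟨r, hr, h⟩ := (h1.and h2).exists_le hC
  exact tree_ht_unique (down_isTree q hT r hr) h.1 h.2

theorem d_trans (hT : q ∈ IsTree lt ht) {x y z : K1}
    (h1 : D q C (meets (lt x y))) (h2 : D q C (meets (lt y z))) : D q C (meets (lt x z)) :=
  (h1.and h2).imp fun r hr h => tree_trans (down_isTree q hT r hr) h.1 h.2

theorem d_mono (hT : q ∈ IsTree lt ht) (hC : Base q C) {x y ξ η : K1}
    (h1 : D q C (meets (lt x y))) (h2 : D q C (meets (ht x ξ))) (h3 : D q C (meets (ht y η))) :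
    ξ < η := by
  obtain ⟨r, hr, h⟩ := ((h1.and h2).and h3).exists_le hC
  exact tree_mono (down_isTree q hT r hr) h.1.1 h.1.2 h.2

theorem d_same (hT : q ∈ IsTree lt ht) (hC : Base q C) {x y z ξ : K1}
    (h1 : D q C (meets (lt x z))) (h2 : D q C (meets (lt y z))) (h3 : D q C (meets (ht x ξ)))
    (h4 : D q C (meets (ht y ξ))) : x = y := by
  obtain ⟨r, hr, h⟩ := ((h1.and h2).and (h3.and h4)).exists_le hC
  exact tree_same (down_isTree q hT r hr) h.1.1 h.1.2 h.2.1 h.2.2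

theorem d_comp (hT : q ∈ IsTree lt ht) {x y z ξ η : K1}
    (h1 : D q C (meets (lt x z))) (h2 : D q C (meets (lt y z))) (h3 : D q C (meets (ht x ξ)))
    (h4 : D q C (meets (ht y η))) (h5 : ξ < η) : D q C (meets (lt x y)) :=
  ((h1.and h2).and (h3.and h4)).imp fun r hr h =>
    tree_comp (down_isTree q hT r hr) h.1.1 h.1.2 h.2.1 h.2.2 h5

theorem d_branch (hT : q ∈ IsTree lt ht) {B : K1 → Set P}
    (hB : q ∈ IsCofinalBranch lt ht B) {x y ξ η : K1}
    (h1 : D q C (meets (B x))) (h2 : D q C (meets (B y))) (h3 : D q C (meets (ht x ξ)))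
    (h4 : D q C (meets (ht y η))) (h5 : ξ < η) : D q C (meets (lt x y)) :=
  ((h1.and h2).and (h3.and h4)).imp fun r hr h =>
    branch_lt (down_isTree q hT r hr) (down_branch q hB r hr) h.1.1 h.1.2 h.2.1 h.2.2 h5

/-- the nodes whose height is decided -/
def Tq (q : P) (C : Set P) (ht : K1 → K1 → Set P) : Type :=
  {x : K1 // ∃ ξ, D q C (meets (ht x ξ))}

noncomputable def hq (x : Tq q C ht) : K1 := x.2.choose

theorem hq_spec (x : Tq q C ht) : D q C (meets (ht x.1 (hq x))) := x.2.choose_spec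

/-- the decided order -/
@[reducible] def tqOrder (lt : K1 → K1 → Set P) (hT : q ∈ IsTree lt ht) (hC : Base q C) :
    PartialOrder (Tq q C ht) where
  le x y := x = y ∨ D q C (meets (lt x.1 y.1))
  lt x y := D q C (meets (lt x.1 y.1))
  le_refl x := Or.inl rfl
  le_trans x y z := by
    rintro (rfl | h1) (rfl | h2)
    · exact Or.inl rfl
    · exact Or.inr h2
    · exact Or.inr h1
    · exact Or.inr (d_trans hT h1 h2)
  lt_iff_le_not_ge x y := by
    constructor
    · intro h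
      refine ⟨Or.inr h, ?_⟩
      rintro (rfl | h')
      · exact absurd (d_mono hT hC h (hq_spec _) (hq_spec _)) (lt_irrefl _)
      · exact absurd (d_mono hT hC h (hq_spec x) (hq_spec y))
          (d_mono hT hC h' (hq_spec y) (hq_spec x)).not_gt
    · rintro ⟨rfl | h, h'⟩
      · exact absurd (Or.inl rfl) h'
      · exact h
  le_antisymm x y := by
    rintro (rfl | h1) (h | h2)
    · rfl
    · rfl
    · exact h.symm
    · exact absurd (d_mono hT hC h1 (hq_spec x) (hq_spec y))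
          (d_mono hT hC h2 (hq_spec y) (hq_spec x)).not_gt

/-- below a condition which forces that nodes of the branches `B`, `B'` of height at least `ξ` are
comparable, the members of height `< α` of `B` belong to `B'` -/
theorem agree {B B' : K1 → Set P} {p : P} (hT : p ∈ IsTree lt ht)
    (hB : p ∈ IsCofinalBranch lt ht B) (hB' : p ∈ IsCofinalBranch lt ht B')
    {u v α β ξ y : K1} (hu : p ∈ meets (B u)) (hv : p ∈ meets (B' v)) (huh : p ∈ meets (ht u β))
    (hvh : p ∈ meets (ht v α)) (huv : v = u ∨ p ∈ meets (lt v u)) (hαβ : α ≤ β)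
    (hy : p ∈ meets (B y)) (hξ : p ∈ meets (ht y ξ)) (hlt : ξ < α) :
    ∃ r ≤ p, r ∈ meets (B' y) := by
  have h6 : p ∈ meets (lt y u) := branch_lt hT hB hy hu hξ huh (hlt.trans_le hαβ)
  have h7 : p ∈ meets (lt y v) := by
    rcases huv with h | h
    · rw [h]; exact h6
    · exact tree_comp hT h6 h hξ hvh hlt
  obtain ⟨r, hr, w, hw1, hw2⟩ := branch_height hB' ξ
  have hTr := down_isTree p hT r hr
  have h8 : r ∈ meets (lt w v) :=
    branch_lt hTr (down_branch p hB' r hr) hw1 (mono hv hr) hw2 (mono hvh hr) hlt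
  have h9 : w = y := tree_same hTr h8 (mono h7 hr) hw2 (mono hξ hr)
  exact ⟨r, hr, h9 ▸ hw1⟩

/-- the same with the roles of the branches exchanged -/
theorem agree' {B B' : K1 → Set P} {p : P} (hT : p ∈ IsTree lt ht)
    (hB : p ∈ IsCofinalBranch lt ht B) (hB' : p ∈ IsCofinalBranch lt ht B')
    {u v α β ξ y : K1} (hu : p ∈ meets (B u)) (hv : p ∈ meets (B' v)) (huh : p ∈ meets (ht u β))
    (hvh : p ∈ meets (ht v α)) (huv : v = u ∨ p ∈ meets (lt v u)) (hαβ : α ≤ β)
    (hy : p ∈ meets (B' y)) (hξ : p ∈ meets (ht y ξ)) (hlt : ξ < α) :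
    ∃ r ≤ p, r ∈ meets (B y) := by
  have h6 : p ∈ meets (lt y v) := branch_lt hT hB' hy hv hξ hvh hlt
  have h7 : p ∈ meets (lt y u) := by
    rcases huv with h | h
    · rw [← h]; exact h6
    · exact tree_trans hT h6 h
  obtain ⟨r, hr, w, hw1, hw2⟩ := branch_height hB ξ
  have hTr := down_isTree p hT r hr
  have h8 : r ∈ meets (lt w u) :=
    branch_lt hTr (down_branch p hB r hr) hw1 (mono hu hr) hw2 (mono huh hr) (hlt.trans_le hαβ)
  have h9 : w = y := tree_same hTr h8 (mono h7 hr) hw2 (mono hξ hr)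
  exact ⟨r, hr, h9 ▸ hw1⟩

/-- an uncountable set of countable ordinals is unbounded -/
theorem unbounded {E : Set K1} (hE : ℵ_ 1 ≤ #E) (ξ : K1) : ∃ α ∈ E, ξ < α := by
  by_contra hcon
  push Not at hcon
  have h5 : #E ≤ #(Set.Iic ξ) :=
    mk_le_of_injective (f := fun α : E => (⟨α.1, hcon α.1 α.2⟩ : Set.Iic ξ))
      (fun a b hab => Subtype.ext (congrArg (fun z : Set.Iic ξ => z.1) hab))
  have h6 : #(Set.Iic ξ) < ℵ_ 1 := by
    have h7 : Set.Iic ξ = insert ξ (Set.Iio ξ) := (Set.Iio_insert).symm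
    rw [h7]
    refine (mk_insert_le).trans_lt ?_
    exact add_lt_of_lt aleph0_lt_aleph_one.le (Cardinal.mk_Iio_toType_ord_lt ξ)
      (one_lt_aleph0.trans aleph0_lt_aleph_one)
  exact absurd (hE.trans h5) (not_le.2 h6)

end defs

/-- Let every family of at most `ℵ₂` conditions be covered by countably many centered sets. If a
condition forces that there is a weak Kurepa tree, then there is one in the ground model. -/
theorem weakKurepa_of_forced {P : Type} [Preorder P] (hP : LocCentered P (ℵ_ 2)) {p₀ : P}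
    (h0 : p₀ ∈ ForcedWeakKurepa P) : WeakKurepa := by
  classical
  obtain ⟨q₁, hq₁, lt, h1⟩ := mem_fex.1 h0 p₀ le_rfl
  obtain ⟨q₂, hq₂, ht, hT₂, h2⟩ := mem_fex.1 h1 q₁ le_rfl
  obtain ⟨q, hq, Br, hBr, hne⟩ := mem_fex.1 h2 q₂ le_rfl
  have hT : q ∈ IsTree lt ht := down_isTree q₂ hT₂ q hq
  -- decide one node of the branch at every height
  have h3 : ∀ (ζ : K2) (α : K1), ∃ s : P, s ≤ q ∧ ∃ x : K1, s ∈ meets (Br ζ x) ∧
      s ∈ meets (ht x α) := fun ζ α => by
    obtain ⟨s, hs, x, hx⟩ := branch_height (hBr ζ) α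
    exact ⟨s, hs, x, hx⟩
  choose c hcq x hx1 hx2 using h3
  have hK12 : #(K2 × K1) ≤ ℵ_ 2 := by
    rw [mk_prod, lift_id, lift_id]
    have h1 : #K2 = ℵ_ 2 := by simp [K2]
    have h2 : #K1 = ℵ_ 1 := by simp [K1]
    rw [h1, h2]
    refine (mul_le_mul' le_rfl (aleph_le_aleph.2 (by norm_num : (1 : Ordinal.{0}) ≤ 2))).trans ?_
    rw [mul_eq_self (aleph0_le_aleph 2)]
  obtain ⟨CC, hCC, hcov⟩ := hP (K2 × K1) (fun z => c z.1 z.2) hK12
  choose idx hidx using hcov
  have hcof1 : #ℕ < (ℵ_ 1 : Cardinal.{0}).ord.cof := by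
    rw [isRegular_aleph_one.cof_ord]
    exact (Cardinal.mk_le_aleph0).trans_lt aleph0_lt_aleph_one
  have hcof2 : #ℕ < (ℵ_ 2 : Cardinal.{0}).ord.cof := by
    have h21 : (2 : Ordinal.{0}) = 1 + 1 := by norm_num
    have hreg : (ℵ_ 2 : Cardinal.{0}).IsRegular := by
      rw [h21]
      exact isRegular_aleph_add_one 1
    rw [hreg.cof_ord]
    exact (Cardinal.mk_le_aleph0).trans_lt (aleph0_lt_aleph_one.trans (aleph_lt_aleph.2 (by norm_num)))
  have h4 : ∀ ζ : K2, ∃ s : ℕ, ℵ_ 1 ≤ #((fun α : K1 => idx (ζ, α)) ⁻¹' {s}) := fun ζ =>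
    infinite_pigeonhole_card (fun α : K1 => idx (ζ, α)) (ℵ_ 1) (by simp [K1])
      aleph0_lt_aleph_one.le hcof1
  choose s hs using h4
  obtain ⟨n, hp⟩ := infinite_pigeonhole_card s (ℵ_ 2) (by simp [K2])
    (aleph0_le_aleph 2) hcof2
  let Z : Set K2 := s ⁻¹' {n}
  let E : K2 → Set K1 := fun ζ => (fun α : K1 => idx (ζ, α)) ⁻¹' {n}
  let C : Set P := {t | t ∈ CC n ∧ t ≤ q}
  have hC : Base q C := base_of_centered (hCC n)
  have hE : ∀ ζ ∈ Z, ℵ_ 1 ≤ #(E ζ) := fun ζ hζ => by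
    have h : s ζ = n := hζ
    have := hs ζ
    rw [h] at this
    exact this
  have hcC : ∀ ζ, ∀ α ∈ E ζ, c ζ α ∈ C := fun ζ α hα => by
    have h : idx (ζ, α) = n := hα
    have h2 := hidx (ζ, α)
    rw [h] at h2
    exact ⟨h2, hcq ζ α⟩
  have hEx1 : ∀ ζ, ∀ α ∈ E ζ, D q C (meets (Br ζ (x ζ α))) := fun ζ α hα =>
    D.of_mem (hcC ζ α hα) (down_meets _) (hx1 ζ α)
  have hEx2 : ∀ ζ, ∀ α ∈ E ζ, D q C (meets (ht (x ζ α) α)) := fun ζ α hα =>
    D.of_mem (hcC ζ α hα) (down_meets _) (hx2 ζ α)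
  have hZne : Nonempty Z := by
    rw [← Cardinal.mk_ne_zero_iff]
    intro h
    rw [h] at hp
    exact absurd ((aleph0_le_aleph 2).trans hp) (not_le.2 aleph0_pos)
  let _ : PartialOrder (Tq q C ht) := tqOrder lt hT hC
  have hhlt : ∀ a b : Tq q C ht, a < b → H362WK.hq a < H362WK.hq b := fun a b hab =>
    d_mono hT hC hab (hq_spec a) (hq_spec b)
  have hcomp : ∀ a b t : Tq q C ht, a ≤ t → b ≤ t → H362WK.hq a < H362WK.hq b → a < b := by
    intro a b t ha hb hab
    rcases hb with rfl | hb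
    · rcases ha with rfl | ha
      · exact absurd hab (lt_irrefl _)
      · exact ha
    · rcases ha with rfl | ha
      · exact absurd (d_mono hT hC hb (hq_spec b) (hq_spec _)) hab.not_gt
      · exact d_comp hT ha hb (hq_spec a) (hq_spec b) hab
  have hcompeq : ∀ a b t : Tq q C ht, a ≤ t → b ≤ t → H362WK.hq a = H362WK.hq b → a = b := by
    intro a b t ha hb hab
    rcases ha with rfl | ha
    · rcases hb with rfl | hb
      · rfl
      · exact absurd hab (d_mono hT hC hb (hq_spec b) (hq_spec _)).ne'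
    · rcases hb with rfl | hb
      · exact absurd hab (d_mono hT hC ha (hq_spec a) (hq_spec _)).ne
      · exact Subtype.ext (d_same hT hC ha hb (hq_spec a) (hab ▸ hq_spec b))
  have hwo : ∀ t : Tq q C ht, IsWellOrder {s : Tq q C ht // s < t} (· < ·) := by
    intro t
    have htri : ∀ a b : {s : Tq q C ht // s < t}, a < b ∨ a = b ∨ b < a := by
      rintro ⟨a, ha⟩ ⟨b, hb⟩
      rcases lt_trichotomy (H362WK.hq a) (H362WK.hq b) with h | h | h
      · exact Or.inl (hcomp a b t ha.le hb.le h)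
      · exact Or.inr (Or.inl (Subtype.ext (hcompeq a b t ha.le hb.le h)))
      · exact Or.inr (Or.inr (hcomp b a t hb.le ha.le h))
    have hwf : WellFounded (fun a b : {s : Tq q C ht // s < t} => a < b) := by
      refine Subrelation.wf (r := InvImage (fun a b : K1 => a < b)
        (fun a : {s : Tq q C ht // s < t} => H362WK.hq a.1)) ?_ (InvImage.wf _ wellFounded_lt)
      intro a b hab
      exact hhlt a.1 b.1 hab
    exact { trichotomous := fun a b h1 h2 => by
              rcases htri a b with h | h | h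
              · exact absurd h h1
              · exact h
              · exact absurd h h2
            wf := hwf }
  have hheight : ∀ t : Tq q C ht, ∃ α < Ordinal.omega 1, HasHeight t α := by
    intro t
    obtain ⟨α, hα⟩ := exists_height t (hwo t)
    refine ⟨α, ?_, hα⟩
    obtain ⟨e⟩ := hα
    refine lt_omega_one (H362WK.hq t)
      (fun γ => ⟨H362WK.hq (e.symm γ).1, hhlt _ _ (e.symm γ).2⟩) ?_
    intro a b hab
    have h5 : H362WK.hq (e.symm a).1 = H362WK.hq (e.symm b).1 := congrArg Subtype.val hab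
    have h6 := hcompeq (e.symm a).1 (e.symm b).1 t (e.symm a).2.le (e.symm b).2.le h5
    exact e.symm.injective (Subtype.ext h6)
  -- the nodes on the chains
  let nd : ∀ ζ : K2, E ζ → Tq q C ht := fun ζ α => ⟨x ζ α.1, α.1, hEx2 ζ α.1 α.2⟩
  have hhnd : ∀ ζ (α : E ζ), H362WK.hq (nd ζ α) = α.1 := fun ζ α =>
    d_unique hT hC (hq_spec (nd ζ α)) (hEx2 ζ α.1 α.2)
  have hndlt : ∀ ζ (α β : E ζ), α < β → nd ζ α < nd ζ β := fun ζ α β hαβ =>
    d_branch hT (hBr ζ) (hEx1 ζ α.1 α.2) (hEx1 ζ β.1 β.2) (hEx2 ζ α.1 α.2) (hEx2 ζ β.1 β.2) hαβ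
  have hlarge : ∀ ζ ∈ Z, ∀ α < Ordinal.omega.{0} 1, ∃ β : E ζ, ∃ s ≤ nd ζ β, HasHeight s α := by
    intro ζ hζ α hα
    obtain ⟨β, f, hf⟩ := exists_large (hE ζ hζ) hα
    obtain ⟨γ, hγ, e⟩ := hheight (nd ζ β)
    refine ⟨β, exists_le_height e ?_⟩
    obtain ⟨e⟩ := e
    refine le_of_strictMono (fun a => e ⟨nd ζ (f a).1, hndlt ζ _ _ (f a).2⟩) ?_
    intro a b hab
    apply e.lt_iff_lt.2
    exact hndlt ζ _ _ (hf hab)
  refine ⟨Tq q C ht, inferInstance, ?_, hheight, ?_, ?_⟩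
  · -- cardinality
    apply le_antisymm
    · calc #(Tq q C ht) ≤ #K1 := mk_subtype_le _
        _ = ℵ_ 1 := by simp [K1]
    · obtain ⟨ζ, hζ⟩ := hZne
      refine (hE ζ hζ).trans (mk_le_of_injective (f := nd ζ) ?_)
      intro a b hab
      have := hhnd ζ a
      rw [hab, hhnd ζ b] at this
      exact Subtype.ext this.symm
  · intro α hα
    obtain ⟨ζ, hζ⟩ := hZne
    obtain ⟨β, s, _, h⟩ := hlarge ζ hζ α hα
    exact ⟨s, h⟩
  · -- the branches
    let b : Z → {b : Set (Tq q C ht) // IsChain (· ≤ ·) b ∧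
        ∀ α < Ordinal.omega 1, ∃ t ∈ b, HasHeight t α} := fun ζ =>
      ⟨{t | ∃ β : E ζ.1, t ≤ nd ζ.1 β}, by
        constructor
        · rintro t ⟨β, hβ⟩ u ⟨γ, hγ⟩ hne
          obtain ⟨δ, h1, h2⟩ : ∃ δ : E ζ.1, t ≤ nd ζ.1 δ ∧ u ≤ nd ζ.1 δ := by
            rcases lt_trichotomy β γ with h | h | h
            · exact ⟨γ, hβ.trans (hndlt _ _ _ h).le, hγ⟩
            · exact ⟨γ, h ▸ hβ, hγ⟩
            · exact ⟨β, hβ, hγ.trans (hndlt _ _ _ h).le⟩
          rcases lt_trichotomy (H362WK.hq t) (H362WK.hq u) with h | h | h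
          · exact Or.inl (hcomp _ _ _ h1 h2 h).le
          · exact absurd (hcompeq _ _ _ h1 h2 h) hne
          · exact Or.inr (hcomp _ _ _ h2 h1 h).le
        · intro α hα
          obtain ⟨β, s, hs, h⟩ := hlarge ζ.1 ζ.2 α hα
          exact ⟨s, ⟨β, hs⟩, h⟩⟩
    refine hp.trans (mk_le_of_injective (f := b) ?_)
    -- different indices give different branches
    intro ζ η hζη
    by_contra hcon
    have hne' : ζ.1 ≠ η.1 := fun h => hcon (Subtype.ext h)
    -- a condition forces agreement below `α`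
    have hag : ∀ α : E η.1, ∃ p ≤ q, ∃ u v β : K1, α.1 ≤ β ∧ p ∈ meets (Br ζ.1 u) ∧
        p ∈ meets (Br η.1 v) ∧ p ∈ meets (ht u β) ∧ p ∈ meets (ht v α.1) ∧
        (v = u ∨ p ∈ meets (lt v u)) := by
      intro α
      have h5 : nd η.1 α ∈ (b ζ).1 := by
        rw [hζη]
        exact ⟨α, le_rfl⟩
      obtain ⟨β, hβ⟩ := h5
      have hαβ : α.1 ≤ β.1 := by
        rcases hβ with h | h
        · rw [← hhnd η.1 α, h, hhnd]
        · have := hhlt _ _ h
          rw [hhnd, hhnd] at this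
          exact this.le
      have h6 := ((hEx1 ζ.1 β.1 β.2).and (hEx1 η.1 α.1 α.2)).and
        ((hEx2 ζ.1 β.1 β.2).and (hEx2 η.1 α.1 α.2))
      rcases hβ with h | h
      · obtain ⟨p, hpq, h7⟩ := h6.exists_le hC
        exact ⟨p, hpq, x ζ.1 β.1, x η.1 α.1, β.1, hαβ, h7.1.1, h7.1.2, h7.2.1, h7.2.2,
          Or.inl (congrArg Subtype.val h)⟩
      · obtain ⟨p, hpq, h7⟩ := (h6.and (h : D q C (meets (lt (x η.1 α.1) (x ζ.1 β.1))))).exists_le hC
        exact ⟨p, hpq, x ζ.1 β.1, x η.1 α.1, β.1, hαβ, h7.1.1.1, h7.1.1.2, h7.1.2.1, h7.1.2.2,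
          Or.inr h7.2⟩
    -- the branches differ
    let Diff : P → K1 → Prop := fun r ξ => ∃ y, r ∈ meets (ht y ξ) ∧
      ((r ∈ meets (Br ζ.1 y) ∧ ∀ r' ≤ r, r' ∉ meets (Br η.1 y)) ∨
        (r ∈ meets (Br η.1 y) ∧ ∀ r' ≤ r, r' ∉ meets (Br ζ.1 y)))
    have hDmono : ∀ r ξ, Diff r ξ → ∀ r' ≤ r, Diff r' ξ := by
      rintro r ξ ⟨y, h1, h2⟩ r' hr'
      refine ⟨y, mono h1 hr', ?_⟩
      rcases h2 with ⟨h2, h3⟩ | ⟨h2, h3⟩
      · exact Or.inl ⟨mono h2 hr', fun r'' h'' => h3 r'' (h''.trans hr')⟩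
      · exact Or.inr ⟨mono h2 hr', fun r'' h'' => h3 r'' (h''.trans hr')⟩
    have hDex : ∀ r ≤ q, ∃ r' ≤ r, ∃ ξ, Diff r' ξ := by
      intro r hr
      by_contra hno
      push Not at hno
      refine hne ζ.1 η.1 hne' r hr fun y => ⟨?_, ?_⟩
      · refine mem_fimp.2 fun r1 hr1 h1 => ?_
        by_contra hno2
        push Not at hno2
        have hT1 := down_isTree q hT r1 (hr1.trans hr)
        obtain ⟨r2, hr2, ξ, hξ⟩ := tree_ht hT1 y
        exact hno r2 (hr2.trans hr1) ξ ⟨y, hξ, Or.inl ⟨mono h1 hr2,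
          fun r' h' => hno2 r' (h'.trans hr2)⟩⟩
      · refine mem_fimp.2 fun r1 hr1 h1 => ?_
        by_contra hno2
        push Not at hno2
        have hT1 := down_isTree q hT r1 (hr1.trans hr)
        obtain ⟨r2, hr2, ξ, hξ⟩ := tree_ht hT1 y
        exact hno r2 (hr2.trans hr1) ξ ⟨y, hξ, Or.inr ⟨mono h1 hr2,
          fun r' h' => hno2 r' (h'.trans hr2)⟩⟩
    have hNo : ∀ α : E η.1, ∀ p ≤ q, (∃ u v β : K1, α.1 ≤ β ∧ p ∈ meets (Br ζ.1 u) ∧
        p ∈ meets (Br η.1 v) ∧ p ∈ meets (ht u β) ∧ p ∈ meets (ht v α.1) ∧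
        (v = u ∨ p ∈ meets (lt v u))) → ∀ r ≤ p, ∀ ξ < α.1, ¬ Diff r ξ := by
      rintro α p hpq ⟨u, v, β, hαβ, h1, h2, h3, h4, h5⟩ r hr ξ hξ ⟨y, hy, hd⟩
      have hTr := down_isTree q hT r (hr.trans hpq)
      have hBζ := down_branch q (hBr ζ.1) r (hr.trans hpq)
      have hBη := down_branch q (hBr η.1) r (hr.trans hpq)
      have h5' : v = u ∨ r ∈ meets (lt v u) := h5.imp id fun h => mono h hr
      rcases hd with ⟨h6, h7⟩ | ⟨h6, h7⟩
      · obtain ⟨r', hr', h8⟩ := agree hTr hBζ hBη (mono h1 hr) (mono h2 hr) (mono h3 hr)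
          (mono h4 hr) h5' hαβ h6 hy hξ
        exact h7 r' hr' h8
      · obtain ⟨r', hr', h8⟩ := agree' hTr hBζ hBη (mono h1 hr) (mono h2 hr) (mono h3 hr)
          (mono h4 hr) h5' hαβ h6 hy hξ
        exact h7 r' hr' h8
    have h7 : ∀ α : E η.1, ∃ r : P, (∀ r' ≤ r, ∀ ξ < α.1, ¬ Diff r' ξ) ∧ ∃ ξ, Diff r ξ := by
      intro α
      obtain ⟨p, hpq, hp⟩ := hag α
      obtain ⟨r, hr, ξ, hξ⟩ := hDex p hpq
      exact ⟨r, fun r' hr' => hNo α p hpq hp r' (hr'.trans hr), ξ, hξ⟩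
    choose r hr1 ξ hr2 using h7
    have hEcard : #(E η.1) ≤ ℵ_ 2 := by
      refine (mk_subtype_le _).trans ?_
      have h2 : #K1 = ℵ_ 1 := by simp [K1]
      rw [h2]
      exact aleph_le_aleph.2 (by norm_num)
    obtain ⟨CC', hCC', hcov'⟩ := hP (E η.1) r hEcard
    choose idx' hidx' using hcov'
    obtain ⟨m, hm⟩ := infinite_pigeonhole_card idx' (ℵ_ 1) (hE η.1 η.2) aleph0_lt_aleph_one.le hcof1
    let E' : Set K1 := Subtype.val '' (idx' ⁻¹' {m})
    have hE' : ℵ_ 1 ≤ #E' := by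
      rw [mk_image_eq Subtype.val_injective]
      exact hm
    have hE'ne : ∃ α, α ∈ idx' ⁻¹' {m} := by
      by_contra hno
      push Not at hno
      have : idx' ⁻¹' {m} = ∅ := Set.eq_empty_iff_forall_notMem.2 hno
      rw [this, mk_emptyCollection] at hm
      exact absurd ((aleph0_le_aleph 1).trans hm) (not_le.2 aleph0_pos)
    obtain ⟨α, hα⟩ := hE'ne
    obtain ⟨_, ⟨α', hα', rfl⟩, hlt⟩ := unbounded hE' (ξ α)
    obtain ⟨t, ht'⟩ := hCC' m {r α, r α'} (by
      intro z hz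
      rw [Finset.coe_insert, Finset.coe_singleton] at hz
      rcases hz with rfl | hz
      · have h8 : idx' α = m := hα
        rw [← h8]
        exact hidx' α
      · rw [Set.mem_singleton_iff.1 hz]
        have h8 : idx' α' = m := hα'
        rw [← h8]
        exact hidx' α')
    have h9 : t ≤ r α := ht' _ (by simp)
    have h10 : t ≤ r α' := ht' _ (by simp)
    exact hr1 α' t h10 (ξ α) hlt (hDmono _ _ (hr2 α) t h9)

end Pool.Agent.H362WK
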