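import Mathlib
import Pool.Agent.H362WK.Down

/-!
# Sigma-centered forcing notions, adding any number of Cohen reals, and cardinals
-/

set_option autoImplicit false

namespace Pool.Agent.H362WK

open Cardinal Pool.Agent.Helper126.Lam.Forc Pool.Agent.W876.WK

/-- `P` is σ-centered: it is the union of countably many centered sets. -/
def SigmaCentered (P : Type) [Preorder P] : Prop :=
  ∃ C : ℕ → Set P, (∀ n, Centered (C n)) ∧ ∀ p, ∃ n, p ∈ C n

theorem SigmaCentered.loc {P : Type} [Preorder P] (h : SigmaCentered P) (κ : Cardinal.{0}) :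
    LocCentered P κ := by
  intro J f _
  obtain ⟨C, h1, h2⟩ := h
  exact ⟨C, h1, fun j => h2 (f j)⟩

theorem LocCentered.anti {P : Type} [Preorder P] {κ μ : Cardinal.{0}} (h : LocCentered P κ)
    (hμ : μ ≤ κ) : LocCentered P μ := fun J f hJ => h J f (hJ.trans hμ)

theorem sigmaCentered_of_countable (P : Type) [Preorder P] [Countable P] [Nonempty P] :
    SigmaCentered P := by
  obtain ⟨e, he⟩ := exists_injective_nat P
  refine ⟨fun n => {p | e p = n}, ?_, fun p => ⟨e p, rfl⟩⟩
  intro n F hF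
  rcases F.eq_empty_or_nonempty with rfl | ⟨t, ht⟩
  · obtain ⟨p⟩ := (inferInstance : Nonempty P)
    exact ⟨p, fun s hs => absurd hs (Finset.notMem_empty s)⟩
  · refine ⟨t, fun s hs => ?_⟩
    have h1 : e s = n := hF (Finset.mem_coe.2 hs)
    have h2 : e t = n := hF (Finset.mem_coe.2 ht)
    rw [he (h1.trans h2.symm)]

theorem cardinals_preserved_of_loc {P : Type} [Preorder P] (hP : LocCentered P (ℵ_ 1)) (p : P) :
    p ∈ CardinalsPreserved P := by
  classical
  intro μ ν hμν hν q _ hq
  obtain ⟨r, _, R, hR, hsurj⟩ := mem_fex.1 hq q le_rfl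
  have h1 : ∀ y : ν.out, ∃ s : P, s ≤ r ∧ ∃ x : μ.out, s ∈ meets (R x y) := fun y => by
    obtain ⟨s, hs, x, hx⟩ := mem_fex.1 (hsurj y) r le_rfl
    exact ⟨s, hs, x, hx⟩
  choose s hs x hx using h1
  have hcount : ∀ x0 : μ.out, #{y // x y = x0} ≤ ℵ₀ := by
    intro x0
    by_contra hcon
    rw [not_le] at hcon
    have h2 : ℵ_ 1 ≤ #{y // x y = x0} := by
      rw [← succ_aleph0]
      exact Order.succ_le_of_lt hcon
    have h3 : #K1 ≤ #{y // x y = x0} := by
      refine le_trans (le_of_eq ?_) h2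
      simp [K1]
    obtain ⟨g⟩ := h3
    obtain ⟨C, hC, hcov⟩ := hP K1 (fun α => s (g α).1) (by simp [K1])
    choose idx hidx using hcov
    have hni : ¬ Function.Injective idx := by
      intro h
      have h4 := mk_le_of_injective h
      have h5 : #K1 = ℵ_ 1 := by simp [K1]
      rw [h5] at h4
      exact absurd (h4.trans Cardinal.mk_le_aleph0) (not_le.2 aleph0_lt_aleph_one)
    simp only [Function.Injective] at hni
    push Not at hni
    obtain ⟨α, β, hαβ, hne⟩ := hni
    obtain ⟨t, ht⟩ := hC (idx α) {s (g α).1, s (g β).1} (by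
      intro z hz
      rw [Finset.coe_insert, Finset.coe_singleton] at hz
      rcases hz with rfl | hz
      · exact hidx α
      · rw [Set.mem_singleton_iff.1 hz, hαβ]
        exact hidx β)
    have h6 : t ≤ s (g α).1 := ht _ (by simp)
    have h7 : t ≤ s (g β).1 := ht _ (by simp)
    have h8 : t ∈ meets (R x0 (g α).1) := by
      have h := mono (hx (g α).1) h6
      rwa [(g α).2] at h
    have h9 : t ∈ meets (R x0 (g β).1) := by
      have h := mono (hx (g β).1) h7
      rwa [(g β).2] at h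
    have h10 : (g α).1 = (g β).1 :=
      IsFun.unique (down_IsFun R r hR t (h6.trans (hs _))) h8 h9
    exact hne (g.injective (Subtype.ext h10))
  have h2 : #ν.out ≤ μ * ℵ₀ := by
    calc #ν.out = #(Σ x0 : μ.out, {y // x y = x0}) := (mk_congr (Equiv.sigmaFiberEquiv x)).symm
      _ = sum fun x0 : μ.out => #{y // x y = x0} := mk_sigma _
      _ ≤ sum fun _ : μ.out => ℵ₀ := sum_le_sum _ _ hcount
      _ = μ * ℵ₀ := by rw [sum_const', mk_out]
  rw [mk_out] at h2
  exact absurd h2 (not_le.2 (mul_lt_of_lt hν.le hμν hν))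

/-- The forcing notion `Fn(I, 2)`: the finite functions from subsets of `I` to `2`, a condition
being stronger if it extends the other one. For `I = κ × ω` it adds `κ` Cohen reals. -/
def FnTwo (I : Type) : Type := {f : I → Option Bool // {i | f i ≠ none}.Finite}

instance (I : Type) : Preorder (FnTwo I) where
  le q p := ∀ n b, p.1 n = some b → q.1 n = some b
  le_refl _ _ _ h := h
  le_trans _ _ _ h1 h2 n v h := h1 n v (h2 n v h)

/-- finitely many reals are separated by their initial segments of some length -/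
theorem exists_sep (S : Finset (ℕ → Bool)) :
    ∃ n : ℕ, ∀ x ∈ S, ∀ y ∈ S, (∀ k < n, x k = y k) → x = y := by
  classical
  have h : ∀ x y : ℕ → Bool, ∃ k, x = y ∨ x k ≠ y k := by
    intro x y
    by_cases h : x = y
    · exact ⟨0, Or.inl h⟩
    · obtain ⟨k, hk⟩ := Function.ne_iff.1 h
      exact ⟨k, Or.inr hk⟩
  choose k hk using h
  refine ⟨(S ×ˢ S).sup (fun z => k z.1 z.2 + 1), ?_⟩
  intro x hx y hy hxy
  have h1 : k x y + 1 ≤ (S ×ˢ S).sup (fun z => k z.1 z.2 + 1) :=
    Finset.le_sup (f := fun z : (ℕ → Bool) × (ℕ → Bool) => k z.1 z.2 + 1)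
      (Finset.mk_mem_product hx hy)
  rcases hk x y with h | h
  · exact h
  · exact absurd (hxy _ (by omega)) h

theorem locCentered_add (I : Type) {κ : Cardinal.{0}} (h0 : ℵ₀ ≤ κ) (hκ : κ ≤ 𝔠) :
    LocCentered (FnTwo I) κ := by
  classical
  intro J f hJ
  let B : Set I := ⋃ j, {i | (f j).1 i ≠ none}
  have hB : #B ≤ #(ℕ → Bool) := by
    have h1 : #B ≤ sum fun j : J => #{i | (f j).1 i ≠ none} := mk_iUnion_le_sum_mk
    have h2 : (sum fun j : J => #{i | (f j).1 i ≠ none}) ≤ sum fun _ : J => ℵ₀ :=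
      sum_le_sum _ _ fun j => ((f j).2.lt_aleph0).le
    rw [sum_const'] at h2
    have h3 : #J * ℵ₀ ≤ κ := by
      refine (mul_le_mul' hJ h0).trans ?_
      rw [mul_eq_self h0]
    have h4 : #(ℕ → Bool) = 𝔠 := by simp
    rw [h4]
    exact ((h1.trans h2).trans h3).trans hκ
  obtain ⟨e⟩ := hB
  let e' : I → ℕ → Bool := fun i => if h : i ∈ B then e ⟨i, h⟩ else fun _ => false
  have he' : ∀ i ∈ B, ∀ i' ∈ B, e' i = e' i' → i = i' := by
    intro i hi i' hi' h
    simp only [e', dif_pos hi, dif_pos hi'] at h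
    exact congrArg Subtype.val (e.injective h)
  obtain ⟨φ, hφ⟩ := exists_surjective_nat (Σ n : ℕ, ((Fin n → Bool) → Bool))
  refine ⟨fun m => {p : FnTwo I | ∀ i b, p.1 i = some b →
    i ∈ B ∧ (φ m).2 (fun k => e' i k) = b}, ?_, ?_⟩
  · intro m F hF
    refine ⟨⟨fun i => if (∃ p ∈ F, p.1 i ≠ none) then some ((φ m).2 (fun k => e' i k)) else none,
      ?_⟩, ?_⟩
    · have hfinite : (⋃ p ∈ (↑F : Set (FnTwo I)), {i | p.1 i ≠ none}).Finite :=
        Set.Finite.biUnion F.finite_toSet (fun p _ => p.2)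
      refine hfinite.subset ?_
      intro i hi
      have h1 : ∃ p ∈ F, p.1 i ≠ none := by
        by_contra hcon
        exact hi (if_neg hcon)
      obtain ⟨p, hp, hpi⟩ := h1
      exact Set.mem_biUnion (Finset.mem_coe.2 hp) hpi
    · intro p hp i b hib
      have h1 : ∃ p ∈ F, p.1 i ≠ none := ⟨p, hp, by rw [hib]; simp⟩
      have h2 := (hF (Finset.mem_coe.2 hp)) i b hib
      show (if (∃ p ∈ F, p.1 i ≠ none) then some ((φ m).2 (fun k => e' i k)) else none) = some b
      rw [if_pos h1, h2.2]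
  · intro j
    obtain ⟨n, hn⟩ := exists_sep ((f j).2.toFinset.image e')
    obtain ⟨m, hm⟩ := hφ ⟨n, fun v => decide (∃ i, (f j).1 i = some true ∧
      (fun k : Fin n => e' i k) = v)⟩
    refine ⟨m, ?_⟩
    intro i b hib
    have hmem : ∀ i b, (f j).1 i = some b → i ∈ B := by
      intro i b h
      refine Set.mem_iUnion.2 ⟨j, ?_⟩
      show (f j).1 i ≠ none
      rw [h]; simp
    have hfin : ∀ i b, (f j).1 i = some b → e' i ∈ (f j).2.toFinset.image e' := by
      intro i b h
      refine Finset.mem_image_of_mem _ ((Set.Finite.mem_toFinset _).2 ?_)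
      show (f j).1 i ≠ none
      rw [h]; simp
    refine ⟨hmem i b hib, ?_⟩
    rw [hm]
    show decide (∃ i', (f j).1 i' = some true ∧
      (fun k : Fin n => e' i' k) = (fun k : Fin n => e' i k)) = b
    cases b with
    | true => exact decide_eq_true ⟨i, hib, rfl⟩
    | false =>
      refine decide_eq_false ?_
      rintro ⟨i', h1, h2⟩
      have h3 : e' i' = e' i := hn _ (hfin i' true h1) _ (hfin i false hib) fun k hk =>
        congrFun h2 ⟨k, hk⟩
      have h4 := he' i' (hmem i' true h1) i (hmem i false hib) h3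
      rw [h4, hib] at h1
      simp at h1

end Pool.Agent.H362WK
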