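import Mathlib
import Pool.Agent.H362WK.Add

/-!
# The continuum hypothesis implies that there is a weak Kurepa tree
-/

set_option autoImplicit false

namespace Pool.Agent.H362WK

open Cardinal Pool.Agent.Helper126.Lam.Forc Pool.Agent.W876.WK

/-- the nodes of the full binary tree of height `ω₁`: functions `K1 → Bool` which vanish from some
point on, together with this point -/
def BT : Type := {t : K1 × (K1 → Bool) // ∀ ξ, t.1 ≤ ξ → t.2 ξ = false}

theorem BT.ext' {t u : BT} (h1 : t.1.1 = u.1.1) (h2 : ∀ ξ < t.1.1, t.1.2 ξ = u.1.2 ξ) : t = u := by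
  apply Subtype.ext
  refine Prod.ext h1 ?_
  funext ξ
  rcases lt_or_ge ξ t.1.1 with h | h
  · exact h2 ξ h
  · rw [t.2 ξ h, u.2 ξ (h1 ▸ h)]

instance : PartialOrder BT where
  le t u := t.1.1 ≤ u.1.1 ∧ ∀ ξ < t.1.1, t.1.2 ξ = u.1.2 ξ
  le_refl t := ⟨le_rfl, fun _ _ => rfl⟩
  le_trans t u v h1 h2 := ⟨h1.1.trans h2.1, fun ξ hξ =>
    (h1.2 ξ hξ).trans (h2.2 ξ (hξ.trans_le h1.1))⟩
  le_antisymm t u h1 h2 := BT.ext' (le_antisymm h1.1 h2.1) h1.2

theorem BT.le_def {t u : BT} : t ≤ u ↔ t.1.1 ≤ u.1.1 ∧ ∀ ξ < t.1.1, t.1.2 ξ = u.1.2 ξ := Iff.rfl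

theorem BT.fst_lt {t u : BT} (h : t < u) : t.1.1 < u.1.1 := by
  refine lt_of_le_of_ne h.le.1 fun h1 => h.ne (BT.ext' h1 h.le.2)

/-- the restriction of a function to the ordinals below `α` -/
noncomputable def BT.cut (F : K1 → Bool) (α : K1) : BT :=
  ⟨(α, fun ξ => if ξ < α then F ξ else false), fun ξ h => if_neg (not_lt.2 h)⟩

theorem BT.cut_apply (F : K1 → Bool) {α ξ : K1} (h : ξ < α) : (BT.cut F α).1.2 ξ = F ξ := if_pos h

theorem BT.height (t : BT) : HasHeight t (od t.1.1) := by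
  let f : {s : BT // s < t} → Set.Iio (od t.1.1) := fun s =>
    ⟨od s.1.1.1, od_lt_iff.2 (BT.fst_lt s.2)⟩
  have hf : ∀ u v, f u ≤ f v ↔ u ≤ v := by
    intro u v
    constructor
    · intro h
      have h1 : u.1.1.1 ≤ v.1.1.1 := by
        by_contra hcon
        rw [not_le] at hcon
        exact absurd (od_lt_iff.2 hcon) (not_lt.2 h)
      refine ⟨h1, fun ξ hξ => ?_⟩
      rw [u.2.le.2 ξ hξ, v.2.le.2 ξ (hξ.trans_le h1)]
    · intro h
      have h1 : u.1.1.1 ≤ v.1.1.1 := h.1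
      rcases h1.eq_or_lt with h2 | h2
      · show od u.1.1.1 ≤ od v.1.1.1
        rw [h2]
      · exact (od_lt_iff.2 h2).le
  have hsurj : Function.Surjective f := by
    intro γ
    obtain ⟨α, hα⟩ := od_surj ((lt_trans γ.2 (od_lt t.1.1) : γ.1 < Ordinal.omega 1))
    have hαt : α < t.1.1 := by
      rw [← od_lt_iff, hα]
      exact γ.2
    refine ⟨⟨BT.cut t.1.2 α, ?_⟩, Subtype.ext hα⟩
    refine lt_of_le_of_ne ⟨hαt.le, fun ξ hξ => BT.cut_apply _ hξ⟩ ?_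
    intro h
    exact hαt.ne (congrArg (fun z : BT => z.1.1) h)
  have hinj : Function.Injective f := by
    intro u v huv
    exact le_antisymm ((hf u v).1 huv.le) ((hf v u).1 huv.ge)
  exact ⟨Equiv.ofBijective f ⟨hinj, hsurj⟩, fun {u v} => hf u v⟩

theorem mk_BT_le (h : ¬ (ℵ_ 2 : Cardinal.{0}) ≤ 𝔠) : #BT ≤ ℵ_ 1 := by
  have hc : (𝔠 : Cardinal.{0}) ≤ ℵ_ 1 := by
    rw [not_le] at h
    have h21 : (2 : Ordinal.{0}) = Order.succ 1 := by
      rw [← Ordinal.add_one_eq_succ]; norm_num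
    rw [h21, aleph_succ] at h
    exact Order.lt_succ_iff.1 h
  have hinj : Function.Injective (fun t : BT =>
      (⟨t.1.1, fun ξ => t.1.2 ξ.1⟩ : Σ α : K1, ({ξ : K1 // ξ < α} → Bool))) := by
    intro t u htu
    have h1 : t.1.1 = u.1.1 := congrArg Sigma.fst htu
    obtain ⟨⟨α, F⟩, hF⟩ := t
    obtain ⟨⟨β, G⟩, hG⟩ := u
    obtain rfl : α = β := h1
    refine BT.ext' (t := ⟨(α, F), hF⟩) (u := ⟨(α, G), hG⟩) rfl ?_
    intro ξ hξ
    have h2 := eq_of_heq (Sigma.mk.inj htu).2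
    exact congrFun h2 ⟨ξ, hξ⟩
  refine (mk_le_of_injective hinj).trans ?_
  rw [mk_sigma]
  have h1 : ∀ α : K1, #({ξ : K1 // ξ < α} → Bool) ≤ ℵ_ 1 := by
    intro α
    have h2 : #{ξ : K1 // ξ < α} < ℵ_ 1 := Cardinal.mk_Iio_toType_ord_lt α
    have h3 : #{ξ : K1 // ξ < α} ≤ ℵ₀ := Order.lt_succ_iff.1 (h2.trans_eq succ_aleph0.symm)
    calc #({ξ : K1 // ξ < α} → Bool) = 2 ^ #{ξ : K1 // ξ < α} := by simp
      _ ≤ 2 ^ (ℵ₀ : Cardinal.{0}) := power_le_power_left two_ne_zero h3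
      _ = 𝔠 := two_power_aleph0
      _ ≤ ℵ_ 1 := hc
  refine (sum_le_sum _ _ h1).trans ?_
  rw [sum_const']
  have h2 : #K1 = ℵ_ 1 := by simp [K1]
  rw [h2, mul_eq_self (aleph0_le_aleph 1)]

/-- If the continuum is smaller than `ℵ₂`, then there is a weak Kurepa tree. -/
theorem weakKurepa_of_ch (h : ¬ (ℵ_ 2 : Cardinal.{0}) ≤ 𝔠) : WeakKurepa := by
  refine ⟨BT, inferInstance, ?_, fun t => ⟨od t.1.1, od_lt _, t.height⟩, ?_, ?_⟩
  · refine le_antisymm (mk_BT_le h) ?_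
    have h2 : #K1 = ℵ_ 1 := by simp [K1]
    rw [← h2]
    refine mk_le_of_injective (f := fun α => BT.cut (fun _ => false) α) ?_
    intro α β hαβ
    exact congrArg (fun z : BT => z.1.1) hαβ
  · intro α hα
    obtain ⟨ξ, rfl⟩ := od_surj hα
    exact ⟨BT.cut (fun _ => false) ξ, BT.height _⟩
  · have h1 : ℵ_ 2 ≤ #(K1 → Bool) := by
      have h21 : (2 : Ordinal.{0}) = Order.succ 1 := by
        rw [← Ordinal.add_one_eq_succ]; norm_num
      have h2 : #(K1 → Bool) = 2 ^ (ℵ_ 1 : Cardinal.{0}) := by simp [K1]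
      rw [h21, aleph_succ, h2]
      exact Order.succ_le_of_lt (cantor _)
    refine h1.trans (mk_le_of_injective (f := fun F : K1 → Bool =>
      (⟨{t : BT | ∀ ξ < t.1.1, t.1.2 ξ = F ξ}, ?_⟩ : {b : Set BT // IsChain (· ≤ ·) b ∧
        ∀ α < Ordinal.omega 1, ∃ t ∈ b, HasHeight t α})) ?_)
    · constructor
      · intro t ht u hu _
        rcases le_total t.1.1 u.1.1 with h | h
        · exact Or.inl ⟨h, fun ξ hξ => (ht ξ hξ).trans (hu ξ (hξ.trans_le h)).symm⟩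
        · exact Or.inr ⟨h, fun ξ hξ => (hu ξ hξ).trans (ht ξ (hξ.trans_le h)).symm⟩
      · intro α hα
        obtain ⟨ξ, rfl⟩ := od_surj hα
        exact ⟨BT.cut F ξ, fun η hη => BT.cut_apply F hη, BT.height _⟩
    · intro F G hFG
      funext ξ
      have hset : {t : BT | ∀ ξ < t.1.1, t.1.2 ξ = F ξ} = {t : BT | ∀ ξ < t.1.1, t.1.2 ξ = G ξ} :=
        congrArg Subtype.val hFG
      obtain ⟨η, -, hη⟩ := unbounded (E := (Set.univ : Set K1)) (by simp [K1]) ξ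
      have h1 : BT.cut F η ∈ {t : BT | ∀ ξ < t.1.1, t.1.2 ξ = F ξ} :=
        fun ζ hζ => BT.cut_apply F hζ
      rw [hset] at h1
      have h2 := h1 ξ hη
      rw [BT.cut_apply F hη] at h2
      exact h2

end Pool.Agent.H362WK
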